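import Pool.Agent.Helper34_AEC.S_NCP

/-!
Extension of finite partial embeddings into dense orders.
-/

set_option autoImplicit false

open FirstOrder FirstOrder.Language Cardinal Set

universe u

namespace Pool.Agent.AEC.S.H70

open Pool.Agent.AEC.S.H34

/-- an embedding of a finite set can be extended to one more point -/
theorem ext_one {J' J : Type u} [LinearOrder J'] [LinearOrder J] [DenselyOrdered J]
    [NoMinOrder J] [NoMaxOrder J] [Nonempty J] (D : Finset J') (k : J' → J)
    (hk : ∀ d ∈ D, ∀ d' ∈ D, d < d' → k d < k d') (s : J') :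
    ∃ k' : J' → J, (∀ d ∈ D, k' d = k d) ∧
      ∀ d ∈ insert s D, ∀ d' ∈ insert s D, d < d' → k' d < k' d' := by
  by_cases hs : s ∈ D
  · refine ⟨k, fun _ _ => rfl, ?_⟩
    rw [Finset.insert_eq_of_mem hs]
    exact hk
  · obtain ⟨m, hm1, hm2⟩ := Order.exists_between_finsets ((D.filter fun d => d < s).image k)
      ((D.filter fun d => s < d).image k) (by
        intro x hx y hy
        rw [Finset.mem_image] at hx hy
        obtain ⟨d, hd, rfl⟩ := hx
        obtain ⟨d', hd', rfl⟩ := hy
        rw [Finset.mem_filter] at hd hd'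
        exact hk d hd.1 d' hd'.1 (hd.2.trans hd'.2))
    refine ⟨Function.update k s m, ?_, ?_⟩
    · intro d hd
      rw [Function.update_of_ne]
      rintro rfl
      exact hs hd
    · intro d hd d' hd' hdd
      rw [Finset.mem_insert] at hd hd'
      by_cases h1 : d = s
      · subst h1
        have h2 : d' ≠ d := hdd.ne'
        rw [Function.update_self, Function.update_of_ne h2]
        apply hm2
        rw [Finset.mem_image]
        exact ⟨d', Finset.mem_filter.2 ⟨hd'.resolve_left h2, hdd⟩, rfl⟩
      · by_cases h2 : d' = s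
        · subst h2
          rw [Function.update_self, Function.update_of_ne h1]
          apply hm1
          rw [Finset.mem_image]
          exact ⟨d, Finset.mem_filter.2 ⟨hd.resolve_left h1, hdd⟩, rfl⟩
        · rw [Function.update_of_ne h1, Function.update_of_ne h2]
          exact hk d (hd.resolve_left h1) d' (hd'.resolve_left h2) hdd

/-- an embedding of a finite set can be extended to a larger finite set -/
theorem ext_fin {J' J : Type u} [LinearOrder J'] [LinearOrder J] [DenselyOrdered J]
    [NoMinOrder J] [NoMaxOrder J] [Nonempty J] (D : Finset J') (k : J' → J)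
    (hk : ∀ d ∈ D, ∀ d' ∈ D, d < d' → k d < k d') (S : Finset J') :
    ∃ k' : J' → J, (∀ d ∈ D, k' d = k d) ∧
      ∀ d ∈ S ∪ D, ∀ d' ∈ S ∪ D, d < d' → k' d < k' d' := by
  induction S using Finset.induction_on with
  | empty =>
    refine ⟨k, fun _ _ => rfl, ?_⟩
    rw [Finset.empty_union]
    exact hk
  | insert s S _ ih =>
    obtain ⟨k₁, h1, h2⟩ := ih
    obtain ⟨k₂, h3, h4⟩ := ext_one (S ∪ D) k₁ h2 s
    refine ⟨k₂, ?_, ?_⟩
    · intro d hd
      rw [h3 d (Finset.mem_union_right _ hd), h1 d hd]
    · rw [Finset.insert_union]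
      intro d hd d' hd'
      exact h4 d (Finset.mem_insert.2 (Finset.mem_insert.1 hd)) d'
        (Finset.mem_insert.2 (Finset.mem_insert.1 hd'))

variable {L : FirstOrder.Language.{u, u}} {κ : Cardinal.{u}} {K : AEC L κ} (E : K.EM)

theorem map_mem_range {I J : Type u} [LinearOrder I] [LinearOrder J] (a : I ↪o J) (D : Set J)
    (h : ∀ i, a i ∈ D) (w : (E.obj I).α) :
    E.map a w ∈ Set.range (E.map (OrderEmbedding.subtype fun i : J => i ∈ D)) := by
  let b : I ↪o {i : J // i ∈ D} := OrderEmbedding.ofMapLEIff (fun i => ⟨a i, h i⟩)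
    (fun i j => by
      change a i ≤ a j ↔ i ≤ j
      rw [a.le_iff_le])
  exact ⟨E.map b w, (E.map_comp b (OrderEmbedding.subtype fun i : J => i ∈ D) a
    (fun _ => rfl) w).symm⟩

/-- If `J` is dense and the element `f v` of `E(J)` is not in `E(J \ {o})` then for every other
order `J'` the element `g v` is not in `E(J' \ {o'})`, `o'` the point which corresponds to `o`. -/
theorem not_mem_back {J J' : Type u} [LinearOrder J] [LinearOrder J'] [DenselyOrdered J]
    [NoMinOrder J] [NoMaxOrder J] (o : J) {n : ℕ} (f : F.{u} n ↪o J) (i : F.{u} n)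
    (hi : f i = o) (v : (E.obj (F.{u} n)).α)
    (hv : E.map f v ∉ Set.range (E.map (OrderEmbedding.subtype fun j : J => j ∈ ({o}ᶜ : Set J))))
    (g : F.{u} n ↪o J') :
    E.map g v ∉ Set.range (E.map (OrderEmbedding.subtype fun j : J' => j ∈ ({g i}ᶜ : Set J'))) := by
  classical
  rintro ⟨z, hz⟩
  obtain ⟨m, w, b, hb⟩ := three E z
  let b' : F.{u} m ↪o J' := b.trans (OrderEmbedding.subtype fun j : J' => j ∈ ({g i}ᶜ : Set J'))
  have hb' : ∀ j, b' j ≠ g i := fun j => (b j).2
  have hbg : E.map b' w = E.map g v := by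
    rw [← hz, ← hb]
    exact E.map_comp b _ b' (fun _ => rfl) w
  let D : Finset J' := Finset.univ.image g
  let S : Finset J' := Finset.univ.image b'
  let k₀ : J' → J := fun d => if h : ∃ x, g x = d then f h.choose else o
  have hk₀ : ∀ x, k₀ (g x) = f x := by
    intro x
    have h : ∃ y, g y = g x := ⟨x, rfl⟩
    change (if h : ∃ y, g y = g x then f h.choose else o) = f x
    rw [dif_pos h]
    congr 1
    exact g.injective h.choose_spec
  have hne : Nonempty J := ⟨o⟩
  obtain ⟨k, hk1, hk2⟩ := ext_fin D k₀ (by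
    intro d hd d' hd' hdd
    obtain ⟨x, -, rfl⟩ := Finset.mem_image.1 hd
    obtain ⟨x', -, rfl⟩ := Finset.mem_image.1 hd'
    rw [hk₀, hk₀]
    exact f.strictMono (g.lt_iff_lt.1 hdd)) S
  have hkg : ∀ x, k (g x) = f x := by
    intro x
    rw [hk1 _ (Finset.mem_image_of_mem _ (Finset.mem_univ x)), hk₀]
  let X : Type u := {j : J' // j ∈ S ∪ D}
  let kX : X ↪o J := OrderEmbedding.ofStrictMono (fun x => k x.1) (by
    intro x y hxy
    exact hk2 x.1 x.2 y.1 y.2 hxy)
  let inc : X ↪o J' := OrderEmbedding.subtype fun j => j ∈ S ∪ D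
  let gX : F.{u} n ↪o X := OrderEmbedding.ofStrictMono (fun x => ⟨g x, Finset.mem_union_right _
    (Finset.mem_image_of_mem _ (Finset.mem_univ x))⟩) (fun x y hxy => g.strictMono hxy)
  let bX : F.{u} m ↪o X := OrderEmbedding.ofStrictMono (fun x => ⟨b' x, Finset.mem_union_left _
    (Finset.mem_image_of_mem _ (Finset.mem_univ x))⟩) (fun x y hxy => b'.strictMono hxy)
  have h1 : E.map gX v = E.map bX w := by
    apply (E.map inc).injective
    rw [← E.map_comp gX inc g (fun _ => rfl), ← E.map_comp bX inc b' (fun _ => rfl), hbg]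
  have h2 : E.map kX (E.map gX v) = E.map f v :=
    (E.map_comp gX kX f (fun x => (hkg x).symm) v).symm
  apply hv
  rw [← h2, h1, ← E.map_comp bX kX (bX.trans kX) (fun _ => rfl)]
  apply map_mem_range
  intro j hj
  have h3 : kX (bX j) = kX (gX i) := by
    have h4 : kX (gX i) = f i := hkg i
    rw [h4, hi]
    exact hj
  exact hb' j (congrArg Subtype.val (kX.injective h3))

end Pool.Agent.AEC.S.H70
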