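import Pool.Agent.Helper70_AEC.D_SEN
import Pool.Agent.Helper70_AEC.D_BCK
import Pool.Agent.Helper56_AEC.S_ORB
import Pool.Agent.AEC.DefsT

/-!
If a component has many neighbours then the large models are dense.
-/

set_option autoImplicit false

open FirstOrder FirstOrder.Language Cardinal Set

universe u

noncomputable section

namespace Pool.Agent.AEC.S.H70

open Pool.Agent.AEC.S.H34

/-- `J` into the lexicographic product: `p` is mapped to the copy `α`, `o` to the copy `β` -/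
def hh {J Λ : Type u} [LinearOrder J] [LinearOrder Λ] (p o : J) (x₀ α β : Λ) : J ↪o J ×ₗ Λ :=
  OrderEmbedding.ofStrictMono
    (fun j => toLex (j, if j = p then α else if j = o then β else x₀)) (by
      intro j j' h
      exact Prod.Lex.toLex_lt_toLex.2 (Or.inl h))

theorem hh_apply {J Λ : Type u} [LinearOrder J] [LinearOrder Λ] (p o : J) (x₀ α β : Λ) (j : J) :
    hh p o x₀ α β j = toLex (j, if j = p then α else if j = o then β else x₀) := rfl

variable {L : FirstOrder.Language.{u, u}} {κ : Cardinal.{u}} {K : AEC L κ}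

theorem adj_hom {A B : K.Mod} (f : K.Hom A B) {x y : A.α} (h : adj L x y) :
    adj L (f x) (f y) := by
  obtain ⟨h1, n, R, v, h2, ⟨i, hi⟩, j, hj⟩ := h
  exact ⟨fun h => h1 (f.injective h), n, R, fun k => f (v k), (f.toEmb.map_rel R v).2 h2,
    ⟨i, congrArg f hi⟩, j, congrArg f hj⟩

theorem dense_of_large (E : K.EM) {J : Type u} [LinearOrder J] [DenselyOrdered J] [NoMinOrder J]
    [NoMaxOrder J] (o : J) (c : (E.obj J).α) (M : Set (E.obj J).α)
    (hM : M = Set.range (E.map (OrderEmbedding.subtype fun i : J => i ∈ ({o}ᶜ : Set J))))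
    (hc : c ∉ M) (hB : κ < #{s : (E.obj J).α | s ∈ M ∧ ∃ y ∈ cmp L M c, adj L s y})
    (Λ : Type u) [LinearOrder Λ] (hΛ : ℵ₀ < #Λ) :
    Dense L #Λ (E.obj (J ×ₗ Λ)).α := by
  classical
  have hκ := K.aleph0_le
  have hne : Nonempty Λ := by
    rw [← mk_ne_zero_iff]
    exact (aleph0_pos.trans hΛ).ne'
  obtain ⟨x₀⟩ := hne
  obtain ⟨m, yc, ac, hac⟩ := three E c
  obtain ⟨s, hsB, n, y, a, i, has, hao, hap, hsens⟩ := exists_sens E (Set.range ac)
    ({o}ᶜ : Set J) (((Set.finite_range ac).lt_aleph0).le.trans hκ) _ hB (by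
      intro s hs
      rw [← hM]
      exact hs.1)
  obtain ⟨hsM, c', hc', hadj⟩ := hsB
  have hpo : a ⟨i⟩ ≠ o := hao ⟨i⟩
  obtain ⟨p, hp⟩ : ∃ p, p = a ⟨i⟩ := ⟨_, rfl⟩
  rw [← hp] at hpo
  -- the elements
  let sα : Λ → (E.obj (J ×ₗ Λ)).α := fun α => E.map (a.trans (hh p o x₀ α x₀)) y
  have f1 : ∀ α β, E.map (hh p o x₀ α β) s = sα α := by
    intro α β
    rw [← has]
    refine (E.map_comp a (hh p o x₀ α β) (a.trans (hh p o x₀ α x₀)) ?_ y).symm
    intro j
    have hj : a j ≠ o := hao j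
    change hh p o x₀ α x₀ (a j) = hh p o x₀ α β (a j)
    rw [hh_apply, hh_apply, if_neg hj, if_neg hj]
  have f2 : ∀ α α' β, E.map (hh p o x₀ α β) c = E.map (hh p o x₀ α' β) c := by
    intro α α' β
    rw [← hac, ← E.map_comp ac (hh p o x₀ α β) (ac.trans (hh p o x₀ α β)) (fun _ => rfl)]
    refine E.map_comp ac (hh p o x₀ α' β) _ ?_ yc
    intro j
    have hj : ac j ≠ p := by
      intro h
      apply hap
      rw [← hp, ← h]
      exact ⟨j, rfl⟩
    change hh p o x₀ α β (ac j) = hh p o x₀ α' β (ac j)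
    rw [hh_apply, hh_apply, if_neg hj, if_neg hj]
  have f3 : ∀ (α β : Λ) (v : (E.obj J).α), v ∉ M →
      E.map (hh p o x₀ α β) v ∉ Set.range (E.map (OrderEmbedding.subtype
        fun j : J ×ₗ Λ => j ∈ ({toLex (o, β)}ᶜ : Set (J ×ₗ Λ)))) := by
    intro α β v hv
    obtain ⟨k, w, f, hf⟩ := three E v
    have hex : ∃ l, f l = o := by
      by_contra hcon
      push Not at hcon
      apply hv
      rw [hM, ← hf]
      exact map_mem_range E f ({o}ᶜ : Set J) hcon w
    obtain ⟨l, hl⟩ := hex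
    have h1 := not_mem_back E o f l hl w (by rw [hf, ← hM]; exact hv) (f.trans (hh p o x₀ α β))
    have h2 : (f.trans (hh p o x₀ α β)) l = toLex (o, β) := by
      change hh p o x₀ α β (f l) = toLex (o, β)
      rw [hl, hh_apply, if_neg hpo.symm, if_pos rfl]
    rw [h2] at h1
    rw [← hf, ← E.map_comp f (hh p o x₀ α β) (f.trans (hh p o x₀ α β)) (fun _ => rfl)]
    exact h1
  have f4 : ∀ (α β : Λ) (T : Set (E.obj (J ×ₗ Λ)).α), (∀ t ∈ T, t ∈ Set.range
      (E.map (OrderEmbedding.subtype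
        fun j : J ×ₗ Λ => j ∈ ({toLex (o, β)}ᶜ : Set (J ×ₗ Λ))))) →
      ∀ v w, con L M v w → con L T (E.map (hh p o x₀ α β) v) (E.map (hh p o x₀ α β) w) := by
    intro α β T hT v w hvw
    induction hvw with
    | refl => exact Relation.ReflTransGen.refl
    | @tail a' b' _ hab ih =>
      exact Relation.ReflTransGen.tail ih ⟨adj_hom _ hab.1, fun h => f3 α β b' hab.2 (hT _ h)⟩
  have hinj : Function.Injective sα := by
    intro α α' h
    by_contra hne
    refine map_ne_of_ne E hsens (a.trans (hh p o x₀ α x₀)) (a.trans (hh p o x₀ α' x₀)) ?_ ?_ h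
    · intro j hj
      change hh p o x₀ α x₀ (a j) = hh p o x₀ α' x₀ (a j)
      have hjp : a j ≠ p := by
        rw [hp]
        intro h
        apply hj
        exact congrArg ULift.down (a.injective h)
      rw [hh_apply, hh_apply, if_neg hjp, if_neg hjp]
    · change hh p o x₀ α x₀ (a ⟨i⟩) ≠ hh p o x₀ α' x₀ (a ⟨i⟩)
      rw [← hp, hh_apply, hh_apply, if_pos rfl, if_pos rfl]
      intro h
      exact hne (congrArg (fun z => (ofLex z).2) h)
  refine ⟨Set.range sα, mk_range_eq _ hinj, ?_⟩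
  rintro _ ⟨α, rfl⟩ _ ⟨α', rfl⟩ - T hT hxT hyT
  -- choice of the copy of `o`
  have hβ : ∃ β : Λ, ∀ t ∈ T, t ∈ Set.range (E.map (OrderEmbedding.subtype
      fun j : J ×ₗ Λ => j ∈ ({toLex (o, β)}ᶜ : Set (J ×ₗ Λ)))) := by
    choose S z hz using fun t : T => E.supp (J ×ₗ Λ) t.1
    have h1 : ∃ β : Λ, ∀ t : T, toLex (o, β) ∉ S t := by
      by_contra hcon
      push Not at hcon
      choose t ht using hcon
      have h2 : Function.Injective (fun β : Λ => (⟨t β, ⟨toLex (o, β), ht β⟩⟩ :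
          Σ t : T, (S t : Set (J ×ₗ Λ)))) := by
        intro β β' h
        exact congrArg (fun q : Σ t : T, (S t : Set (J ×ₗ Λ)) => (ofLex q.2.1).2) h
      have h4 := mk_le_of_injective h2
      rw [mk_sigma] at h4
      have h5 : (Cardinal.sum fun t : T => #(S t : Set (J ×ₗ Λ))) ≤ #T * ℵ₀ := by
        refine (Cardinal.sum_le_sum _ (fun _ => ℵ₀) fun t => ?_).trans ?_
        · exact ((S t).finite_toSet.lt_aleph0).le
        · rw [Cardinal.sum_const']
      exact absurd (h4.trans h5) (not_le.2 (mul_lt_of_lt hΛ.le hT hΛ))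
    obtain ⟨β, hβ⟩ := h1
    refine ⟨β, fun t ht => ?_⟩
    have h6 := hz ⟨t, ht⟩
    change _ = t at h6
    rw [← h6]
    apply map_mem_range
    intro j hj
    apply hβ ⟨t, ht⟩
    have h7 : j.1 = toLex (o, β) := hj
    rw [← h7]
    exact j.2
  obtain ⟨β, hβ⟩ := hβ
  have hc'M : c' ∉ M := H56.con_not hc' hc
  have hcc' : con L M c c' := hc'
  have hc'c : con L M c' c := H56.con_symm hcc' hc
  -- the path
  have p1 : con L T (sα α) (E.map (hh p o x₀ α β) c') := by
    rw [← f1 α β]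
    exact Relation.ReflTransGen.single ⟨adj_hom _ hadj, fun h => f3 α β c' hc'M (hβ _ h)⟩
  have p2 := f4 α β T hβ _ _ hc'c
  rw [f2 α α' β] at p2
  have p3 := f4 α' β T hβ _ _ hcc'
  have p4 : con L T (E.map (hh p o x₀ α' β) c') (sα α') := by
    rw [← f1 α' β]
    refine Relation.ReflTransGen.single ⟨adj_hom _ (H56.adj_symm hadj), ?_⟩
    rw [f1 α' β]
    exact hyT
  exact ((p1.trans p2).trans p3).trans p4

end Pool.Agent.AEC.S.H70
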