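import Pool.Agent.Helper56_AEC.S_ORB

/-!
Many conjugate components (the proof is the one of helper56, with other hypotheses).
-/

set_option autoImplicit false

open FirstOrder FirstOrder.Language Cardinal Set

universe u

noncomputable section

namespace Pool.Agent.AEC.S.H70

open Pool.Agent.AEC.H56

variable {L : FirstOrder.Language.{u, u}} {κ : Cardinal.{u}}

theorem orb_core (K : AEC L κ) (E : K.EM) (J : Type u) [LinearOrder J] (o : J)
    (hJ : ∀ A : Set J, #A ≤ κ → ∃ σ : J ≃o J, (∀ a ∈ A, a ≠ o → σ a = a) ∧ σ o ≠ o)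
    (c : (E.obj J).α)
    (hc : c ∉ Set.range (E.map (OrderEmbedding.subtype fun i : J => i ∈ ({o}ᶜ : Set J))))
    (hsm : #{s : (E.obj J).α | s ∈ Set.range
        (E.map (OrderEmbedding.subtype fun i : J => i ∈ ({o}ᶜ : Set J))) ∧
      ∃ y ∈ cmp L (Set.range
        (E.map (OrderEmbedding.subtype fun i : J => i ∈ ({o}ᶜ : Set J)))) c, adj L s y} ≤ κ) :
    Nonempty (Orb K) := by
  classical
  obtain ⟨M, hM⟩ : ∃ M : Set (E.obj J).α, M = Set.range
    (E.map (OrderEmbedding.subtype fun i : J => i ∈ ({o}ᶜ : Set J))) := ⟨_, rfl⟩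
  rw [← hM] at hsm hc
  obtain ⟨C, hC⟩ : ∃ C : Set (E.obj J).α, C = cmp L M c := ⟨_, rfl⟩
  rw [← hC] at hsm
  obtain ⟨B, hB⟩ : ∃ B : Set (E.obj J).α, B = {s | s ∈ M ∧ ∃ y ∈ C, adj L s y} := ⟨_, rfl⟩
  rw [← hB] at hsm
  have hcb : CB (L := L) M c C B := ⟨hC, hB, hc⟩
  -- supports
  have hsB : ∀ s : B, ∃ t : Finset J, o ∉ t ∧ ∀ σ : J ≃o J, (∀ i ∈ t, σ i = i) →
      aut E σ s = s := by
    intro s
    have h1 : (s : (E.obj J).α) ∈ M := hcb.b_sub s.2
    rw [hM] at h1
    obtain ⟨y, hy⟩ := h1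
    obtain ⟨t, z, hz⟩ := E.supp _ y
    refine ⟨t.image Subtype.val, ?_, ?_⟩
    · intro h2
      rw [Finset.mem_image] at h2
      obtain ⟨a, _, ha⟩ := h2
      exact a.2 ha
    · intro σ hσ
      obtain ⟨a, ha⟩ : ∃ a : (t : Set {i : J // i ∈ ({o}ᶜ : Set J)}) ↪o
          {i : J // i ∈ ({o}ᶜ : Set J)}, a = OrderEmbedding.subtype
            (fun i : {i : J // i ∈ ({o}ᶜ : Set J)} => i ∈ (t : Set {i : J // i ∈ ({o}ᶜ : Set J)})) :=
        ⟨OrderEmbedding.subtype
            (fun i : {i : J // i ∈ ({o}ᶜ : Set J)} => i ∈ (t : Set {i : J // i ∈ ({o}ᶜ : Set J)})),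
          rfl⟩
      rw [← ha] at hz
      have h3 := E.map_comp a (OrderEmbedding.subtype fun i : J => i ∈ ({o}ᶜ : Set J))
        (a.trans (OrderEmbedding.subtype fun i : J => i ∈ ({o}ᶜ : Set J))) (fun i => rfl) z
      rw [hz, hy] at h3
      rw [← h3]
      refine aut_fix E _ z σ ?_
      intro i
      rw [ha]
      exact hσ _ (Finset.mem_image_of_mem _ i.2)
  choose fs hfo hfs using hsB
  obtain ⟨tc, z, hz⟩ := E.supp J c
  obtain ⟨I₀, hI₀⟩ : ∃ I₀ : Set J, I₀ = (⋃ s : B, (fs s : Set J)) ∪ ((tc : Set J) \ {o}) :=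
    ⟨_, rfl⟩
  have hκ := K.aleph0_le
  have hI₀o : o ∉ I₀ := by
    rw [hI₀]
    rintro (h | h)
    · rw [Set.mem_iUnion] at h
      obtain ⟨s, hs⟩ := h
      exact hfo s hs
    · exact h.2 rfl
  have hI₀c : #I₀ ≤ κ := by
    rw [hI₀]
    refine (Cardinal.mk_union_le _ _).trans ?_
    refine Cardinal.add_le_of_le hκ ?_ ?_
    · refine (Cardinal.mk_iUnion_le _).trans ?_
      refine (mul_le_mul' hsm (ciSup_le' fun s => ?_)).trans (Cardinal.mul_eq_self hκ).le
      exact (Cardinal.mk_le_aleph0 (α := (fs s : Set J))).trans hκ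
    · exact ((Cardinal.lt_aleph0_of_finite
        (↥((tc : Set J) \ {o}))).le).trans hκ
  have hfixB : ∀ σ : J ≃o J, (∀ a ∈ I₀, σ a = a) → ∀ s ∈ B, aut E σ s = s := by
    intro σ hσ s hs
    refine hfs ⟨s, hs⟩ σ fun i hi => hσ i ?_
    rw [hI₀]
    left
    rw [Set.mem_iUnion]
    exact ⟨⟨s, hs⟩, hi⟩
  -- the index set
  let ι : Type u := {D : Set (E.obj J).α // ∃ σ : J ≃o J, (∀ a ∈ I₀, σ a = a) ∧
    D = (fun x => aut E σ x) '' C}
  let k₀ : ι := ⟨C, OrderIso.refl J, fun _ _ => rfl, by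
    have h : (fun x => aut E (OrderIso.refl J) x) = id := funext fun x => aut_refl E x
    rw [h, Set.image_id]⟩
  have hex : ∀ k : ι, ∃ σ : J ≃o J, (∀ a ∈ I₀, σ a = a) ∧
      k.1 = (fun x => aut E σ x) '' C ∧ (k = k₀ → σ = OrderIso.refl J) := by
    intro k
    by_cases hk : k = k₀
    · refine ⟨OrderIso.refl J, fun _ _ => rfl, ?_, fun _ => rfl⟩
      rw [hk]
      have h : (fun x => aut E (OrderIso.refl J) x) = id := funext fun x => aut_refl E x
      rw [h, Set.image_id]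
    · obtain ⟨σ, h1, h2⟩ := k.2
      exact ⟨σ, h1, h2, fun h => absurd h hk⟩
  choose g hg1 hg2 hg3 using hex
  refine ⟨{ N := E.obj J, B := B, C := C, ι := ι, e := fun k => aut E (g k), k₀ := k₀,
            hk₀ := ?_, ne := ⟨c, hcb.c_mem⟩, big := ?_, small := hsm, fix := ?_, disj := ?_,
            dis := ?_, closed := fun x hx y hxy => hcb.closed hx hxy,
            conn := fun x hx y hy => hcb.conn hx hy, nbr := ?_ }⟩
  · intro x _
    change aut E (g k₀) x = x
    rw [hg3 k₀ rfl]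
    exact aut_refl E x
  · by_contra hcon
    rw [not_lt] at hcon
    obtain ⟨h, hh1, hh2⟩ := hJ (I₀ ∪ Set.range (fun k : ι => g k o)) (by
      refine (Cardinal.mk_union_le _ _).trans ?_
      exact Cardinal.add_le_of_le hκ hI₀c (Cardinal.mk_range_le.trans hcon))
    have hhG : ∀ a ∈ I₀, h a = a := by
      intro a ha
      exact hh1 a (Or.inl ha) (fun h1 => hI₀o (h1 ▸ ha))
    have hhG' : ∀ a ∈ I₀, h.symm a = a := by
      intro a ha
      rw [OrderIso.symm_apply_eq, hhG a ha]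
    have hho : ∀ k : ι, h (g k o) ≠ o := by
      intro k hk
      by_cases h1 : g k o = o
      · rw [h1] at hk
        exact hh2 hk
      · rw [hh1 _ (Or.inr ⟨k, rfl⟩) h1] at hk
        exact h1 hk
    obtain ⟨k, hk⟩ : ∃ k : ι, k.1 = (fun x => aut E h.symm x) '' C :=
      ⟨⟨_, h.symm, hhG', rfl⟩, rfl⟩
    have h2 : aut E (g k) c ∈ k.1 := by
      rw [hg2 k]
      exact ⟨c, hcb.c_mem, rfl⟩
    rw [hk] at h2
    obtain ⟨x, hx, hx2⟩ := h2
    change aut E h.symm x = aut E (g k) c at hx2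
    have h3 : aut E h (aut E (g k) c) = x := by
      rw [← hx2, aut_symm_apply]
    rw [← aut_trans, ← hz] at h3
    apply hcb.not_mem hx
    rw [← h3, hM]
    refine aut_range E _ z _ _ ?_
    intro i
    change h (g k i.1) ≠ o
    by_cases hi : i.1 = o
    · rw [hi]
      exact hho k
    · have h4 : i.1 ∈ I₀ := by
        rw [hI₀]
        exact Or.inr ⟨i.2, hi⟩
      rw [hg1 k _ h4, hhG _ h4]
      exact hi
  · intro k s hs
    exact hfixB (g k) (hg1 k) s hs
  · intro k k' x y hx hy hxy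
    change aut E (g k) x = aut E (g k') y at hxy
    have h1 : ∀ a ∈ I₀, ((g k).trans (g k').symm) a = a := by
      intro a ha
      change (g k').symm (g k a) = a
      rw [OrderIso.symm_apply_eq, hg1 k a ha, hg1 k' a ha]
    have h2 : aut E ((g k).trans (g k').symm) x = y := by
      rw [aut_trans, hxy]
      have h3 := aut_symm_apply E (g k').symm y
      exact h3
    have h3 := hcb.image (aut E ((g k).trans (g k').symm)) (hfixB _ h1) hx (h2.symm ▸ hy)
    apply Subtype.ext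
    rw [hg2 k, hg2 k']
    conv_rhs => rw [← h3]
    rw [Set.image_image]
    refine Set.image_congr fun w _ => ?_
    rw [aut_trans, aut_symm_apply]
  · intro x hx hxC
    exact hcb.not_mem hxC (hcb.b_sub hx)
  · intro s hs
    rw [hB] at hs
    exact hs.2


end Pool.Agent.AEC.S.H70
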