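import Pool.Agent.Helper70_AEC.S_ORD

/-!
The order of S_ORD is dense.
-/

set_option autoImplicit false

open Cardinal Ordinal Set

universe u

noncomputable section

namespace Pool.Agent.AEC.S.H70

theorem dense_lex {ι : Type u} [LinearOrder ι] [WellFoundedLT ι] [NoMaxOrder ι] :
    DenselyOrdered (Lex (ι → ℤ)) := ⟨by
  intro f g hfg
  obtain ⟨i, hi, hlt⟩ := hfg
  have hi' : ∀ j < i, f j = g j := hi
  have hlt' : f i < g i := hlt
  refine ⟨toLex (fun j => if j ≤ i then f j else f j + 1), ?_, ?_⟩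
  · obtain ⟨j₀, hj₀, hmin⟩ := WellFounded.has_min (wellFounded_lt (α := ι)) (Set.Ioi i)
      Set.nonempty_Ioi
    refine ⟨j₀, ?_, ?_⟩
    · intro j hj
      have h1 : j ≤ i := by
        by_contra hcon
        exact hmin j (not_le.1 hcon) hj
      change f j = if j ≤ i then f j else f j + 1
      rw [if_pos h1]
    · change f j₀ < if j₀ ≤ i then f j₀ else f j₀ + 1
      rw [if_neg (not_le.2 hj₀)]
      omega
  · refine ⟨i, ?_, ?_⟩
    · intro j hj
      change (if j ≤ i then f j else f j + 1) = g j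
      rw [if_pos hj.le]
      exact hi' j hj
    · change (if i ≤ i then f i else f i + 1) < g i
      rw [if_pos le_rfl]
      exact hlt'⟩

theorem ord_dense (κ : Cardinal.{u}) (hκ : ℵ₀ ≤ κ) : ∃ (J : Type u) (_ : LinearOrder J)
    (_ : DenselyOrdered J) (_ : NoMinOrder J) (_ : NoMaxOrder J) (o : J), ∀ A : Set J, #A ≤ κ →
      ∃ σ : J ≃o J, (∀ a ∈ A, a ≠ o → σ a = a) ∧ σ o ≠ o := by
  let ι := (Order.succ κ).ord.ToType
  have hreg : (Order.succ κ).IsRegular := isRegular_succ hκ
  have hcof : Order.cof ι = Order.succ κ := (Ordinal.cof_toType _).trans hreg.cof_ord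
  have hne : Nonempty ι := by
    rw [← Order.cof_ne_zero_iff, hcof]
    exact (lt_of_le_of_lt zero_le (Order.lt_succ κ)).ne'
  have hmax : NoMaxOrder ι := by
    have h1 : ℵ₀ ≤ Order.succ κ := hκ.trans (Order.le_succ κ)
    exact Cardinal.noMaxOrder h1
  refine ⟨Lex (ι → ℤ), inferInstance, dense_lex, noMin, noMax, toLex 0, fun A hA => ?_⟩
  classical
  -- an index where the element is not zero
  have h1 : ∀ f : Lex (ι → ℤ), f ≠ toLex 0 → ∃ i, f i ≠ 0 := by
    intro f hf
    by_contra hcon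
    push Not at hcon
    exact hf (funext hcon)
  choose! w hw using h1
  have h2 : ¬ IsCofinal (w '' A) := by
    intro h
    have h3 := Order.cof_le h
    rw [hcof] at h3
    have h4 : #(w '' A) ≤ κ := mk_image_le.trans hA
    exact absurd (h3.trans h4) (not_le.2 (Order.lt_succ κ))
  unfold IsCofinal at h2
  push Not at h2
  obtain ⟨a, ha⟩ := h2
  refine ⟨tli a 1, ?_, ?_⟩
  · intro f hf hfo
    change tl a 1 f = f
    unfold tl
    rw [if_neg]
    intro h
    exact hw f hfo (h _ (ha _ ⟨f, hf, rfl⟩))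
  · intro h
    have h3 : tl a 1 (toLex 0) a = (toLex (0 : ι → ℤ)) a := by
      have h4 : tl a 1 (toLex 0) = toLex 0 := h
      rw [h4]
    rw [tl_apply, if_pos ⟨fun b _ => rfl, rfl⟩] at h3
    have h5 : (toLex (0 : ι → ℤ)) a = 0 := rfl
    rw [h5] at h3
    omega

end Pool.Agent.AEC.S.H70
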