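import Pool.Agent.AEC.StmtsS
import Pool.Agent.AEC.DefsT

/-!
The structures `W τ T` are sparse; sparse and dense structures under embeddings.
-/

set_option autoImplicit false

open FirstOrder FirstOrder.Language Cardinal Set

universe u

noncomputable section

namespace Pool.Agent.AEC.S.H70

variable {L : FirstOrder.Language.{u, u}} {κ : Cardinal.{u}}

theorem pr_mem_A {τ : Tpl L κ} {T : Type u} {x : W τ T} {t : T} (h : x.tag = some t) :
    x.pr ∈ τ.A := by
  rcases x with x | x
  · exact absurd h (by intro h; cases h)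
  · exact x.2.2

theorem pr_not_mem_A {τ : Tpl L κ} {T : Type u} {x : W τ T} (h : x.tag = none) :
    x.pr ∉ τ.A := by
  rcases x with x | x
  · exact x.2
  · exact absurd h (by intro h; cases h)

theorem ext_pr {τ : Tpl L κ} {T : Type u} {x y : W τ T} (h : x.tag = y.tag)
    (h' : x.pr = y.pr) : x = y := by
  rcases x with x | x
  · rcases y with y | y
    · have : x = y := Subtype.ext h'
      rw [this]
    · exact absurd h (by intro h; cases h)
  · rcases y with y | y
    · exact absurd h (by intro h; cases h)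
    · have h1 : x.1 = y.1 := Option.some_injective _ h
      have h2 : x.2 = y.2 := Subtype.ext h'
      rw [Prod.ext h1 h2]

theorem sparse_W [L.IsRelational] (τ : Tpl L κ) (T : Type u) : Sparse L κ (W τ T) := by
  intro Z hZ
  have h1 : ∃ x ∈ Z, ∃ y ∈ Z, ∃ t t' : T, x.tag = some t ∧ y.tag = some t' ∧ t ≠ t' := by
    by_contra hcon
    push Not at hcon
    have hinj : Function.Injective (fun x : Z => x.1.pr) := by
      rintro ⟨x, hx⟩ ⟨y, hy⟩ hxy
      change x.pr = y.pr at hxy
      apply Subtype.ext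
      apply ext_pr _ hxy
      rcases hxt : x.tag with _ | t
      · rcases hyt : y.tag with _ | t'
        · rfl
        · exact absurd (pr_mem_A hyt) (hxy ▸ pr_not_mem_A hxt)
      · rcases hyt : y.tag with _ | t'
        · exact absurd (pr_mem_A hxt) (hxy ▸ pr_not_mem_A hyt)
        · rw [hcon x hx y hy t t' hxt hyt]
    exact absurd ((mk_le_of_injective hinj).trans τ.card) (not_le.2 hZ)
  obtain ⟨x, hx, y, hy, t, t', hxt, hyt, htt⟩ := h1
  refine ⟨x, hx, y, hy, {z | z.tag = none ∧ z.pr ∈ τ.B}, ?_, ?_, ?_, ?_⟩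
  · refine le_trans (mk_le_of_injective
      (f := fun z : {z : W τ T | z.tag = none ∧ z.pr ∈ τ.B} => z.1.pr) ?_) τ.card
    rintro ⟨z, hz⟩ ⟨w, hw⟩ hzw
    apply Subtype.ext
    exact ext_pr (hz.1.trans hw.1.symm) hzw
  · rintro ⟨h, -⟩
    rw [hxt] at h
    exact absurd h (by simp)
  · rintro ⟨h, -⟩
    rw [hyt] at h
    exact absurd h (by simp)
  · intro hcon
    have h2 : ∀ z, con L {z : W τ T | z.tag = none ∧ z.pr ∈ τ.B} x z → z.tag = some t := by
      intro z hz
      induction hz with
      | refl => exact hxt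
      | @tail a b _ hab ih =>
        obtain ⟨⟨-, n, R, v, hv, ⟨i, hi⟩, j, hj⟩, hbT⟩ := hab
        obtain ⟨hv1, hv2⟩ := hv
        have h3 := τ.loc n R _ hv2 ⟨i, by rw [hi]; exact pr_mem_A ih⟩ j
        rw [hj] at h3
        rcases h3 with h3 | h3
        · rcases hbt : b.tag with _ | t''
          · exact absurd h3 (pr_not_mem_A hbt)
          · rw [hv1 i j t t'' (by rw [hi]; exact ih) (by rw [hj]; exact hbt)]
        · exfalso
          apply hbT
          refine ⟨?_, h3⟩
          rcases hbt : b.tag with _ | t''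
          · rfl
          · exact absurd (pr_mem_A hbt) (τ.dis _ h3)
    have h3 := h2 y hcon
    rw [hyt] at h3
    exact htt (Option.some_injective _ h3).symm

theorem adj_emb {M N : Type u} [L.Structure M] [L.Structure N] (f : M ↪[L] N) {x y : M}
    (h : adj L x y) : adj L (f x) (f y) := by
  obtain ⟨h1, n, R, v, h2, ⟨i, hi⟩, j, hj⟩ := h
  exact ⟨fun h => h1 (f.injective h), n, R, fun k => f (v k), (f.map_rel R v).2 h2,
    ⟨i, congrArg f hi⟩, j, congrArg f hj⟩

theorem con_emb {M N : Type u} [L.Structure M] [L.Structure N] (f : M ↪[L] N) (T : Set N)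
    {x y : M} (h : con L (f ⁻¹' T) x y) : con L T (f x) (f y) := by
  induction h with
  | refl => exact Relation.ReflTransGen.refl
  | tail _ h2 ih => exact Relation.ReflTransGen.tail ih ⟨adj_emb f h2.1, h2.2⟩

theorem sparse_of_emb {M N : Type u} [L.Structure M] [L.Structure N] (f : M ↪[L] N)
    (h : Sparse L κ N) : Sparse L κ M := by
  intro Z hZ
  have h1 : κ < #(f '' Z) := by
    rw [mk_image_eq f.injective]
    exact hZ
  obtain ⟨_, ⟨x, hx, rfl⟩, _, ⟨y, hy, rfl⟩, T, hT, hxT, hyT, hn⟩ := h _ h1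
  refine ⟨x, hx, y, hy, f ⁻¹' T, ?_, hxT, hyT, fun hcon => hn (con_emb f T hcon)⟩
  exact (mk_preimage_of_injective _ _ f.injective).trans hT

theorem dense_of_equiv {M N : Type u} [L.Structure M] [L.Structure N] (e : M ≃[L] N)
    {l : Cardinal.{u}} (h : Dense L l M) : Dense L l N := by
  obtain ⟨Z, hZ, H⟩ := h
  refine ⟨e '' Z, by rw [mk_image_eq e.injective]; exact hZ, ?_⟩
  rintro _ ⟨x, hx, rfl⟩ _ ⟨y, hy, rfl⟩ hxy T hT hxT hyT
  have h1 := H x hx y hy (fun h => hxy (by rw [h])) (e ⁻¹' T)
    ((mk_preimage_of_injective _ _ e.injective).trans_lt hT) hxT hyT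
  exact con_emb e.toEmbedding T h1

end Pool.Agent.AEC.S.H70
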