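import Pool.Agent.Helper70_AEC.S_ALL
import Pool.Agent.Helper70_AEC.D_DEN
import Pool.Agent.Helper70_AEC.D_ORB
import Pool.Agent.Helper70_AEC.D_ORD
import Pool.Agent.Helper70_AEC.D_SPW

/-!
# Theorem S, second form: assembly
-/

set_option autoImplicit false

open FirstOrder FirstOrder.Language Cardinal Set

universe u

noncomputable section

namespace Pool.Agent.AEC.S.H70

theorem sfn2 (κ : Cardinal.{u}) : ∃ μ : Cardinal.{u},
    ∀ (L : FirstOrder.Language.{u, u}) [L.IsRelational] (K : AEC L κ) (l : Cardinal.{u}),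
      μ ≤ l → K.Cat l → (∃ N : K.Mod, #N.α = l ∧ ¬ Dense L l N.α) →
        ∀ χ : Cardinal.{u}, μ ≤ χ → K.Cat χ ∧ K.AP χ ∧
          ∀ M : K.Mod, #M.α = χ → Sparse L κ M.α := by
  by_cases hκ : ℵ₀ ≤ κ
  swap
  · exact ⟨0, fun L _ K => absurd K.aleph0_le hκ⟩
  obtain ⟨μ₀, hμ₀⟩ := hn2' κ
  obtain ⟨J, _, _, _, _, o, hJ⟩ := ord_dense κ hκ
  refine ⟨max μ₀ (max (Order.succ κ) #J), ?_⟩
  intro L _ K l hl hcat hN χ hχ
  obtain ⟨N, hNl, hND⟩ := hN
  have hμ₀l : μ₀ ≤ l := (le_max_left _ _).trans hl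
  have hκl : κ < l := Order.succ_le_iff.1 (((le_max_left _ _).trans (le_max_right _ _)).trans hl)
  have hJl : #J ≤ l := ((le_max_right _ _).trans (le_max_right _ _)).trans hl
  obtain ⟨hAL, l₀, g1, g2, g3⟩ := hμ₀ L K ⟨l, hμ₀l, hcat⟩
  obtain ⟨pp, hpp⟩ := tpa' L κ K hAL
  obtain ⟨E⟩ := emx' L κ K (AEC.H82.tpb L κ K pp hpp)
  obtain ⟨c, hc⟩ := AEC.S.H34.s_ncp L κ K E J o hJ
  have hne : Nonempty J := ⟨o⟩
  have hl0 : ℵ₀ ≤ l := hκ.trans hκl.le
  -- the component has few neighbours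
  have hsm : #{s : (E.obj J).α | s ∈ Set.range
      (E.map (OrderEmbedding.subtype fun i : J => i ∈ ({o}ᶜ : Set J))) ∧
      ∃ y ∈ cmp L (Set.range
        (E.map (OrderEmbedding.subtype fun i : J => i ∈ ({o}ᶜ : Set J)))) c, adj L s y} ≤ κ := by
    by_contra hcon
    rw [not_le] at hcon
    obtain ⟨M, hM⟩ : ∃ M : Set (E.obj J).α, M = Set.range
      (E.map (OrderEmbedding.subtype fun i : J => i ∈ ({o}ᶜ : Set J))) := ⟨_, rfl⟩
    rw [← hM] at hcon hc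
    have hΛ : #(l.ord.ToType) = l := by rw [mk_ord_toType]
    have h1 := dense_of_large E o c M hM hc hcon l.ord.ToType (by rw [hΛ]; exact hκ.trans_lt hκl)
    have h2 : #(J ×ₗ l.ord.ToType) = l := by
      have h3 : #(J ×ₗ l.ord.ToType) = #(J × l.ord.ToType) := rfl
      rw [h3, mk_prod, lift_id, lift_id, hΛ]
      exact mul_eq_right hl0 hJl (mk_ne_zero J)
    have h4 : #(E.obj (J ×ₗ l.ord.ToType)).α = l := by
      apply le_antisymm
      · refine (E.card_le _).trans ?_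
        rw [h2]
        exact add_le_of_le hl0 le_rfl hκl.le
      · refine le_trans ?_ (E.le_card _)
        rw [h2]
    obtain ⟨e⟩ := hcat.2 _ N h4 hNl
    apply hND
    rw [hΛ] at h1
    exact dense_of_equiv e h1
  obtain ⟨τ, hτ⟩ := tpl' L κ K (orb_core K E J o hJ c hc hsm)
  have hμ₀χ : l₀ ≤ χ := g2.trans ((le_max_left _ _).trans hχ)
  obtain ⟨h5, h6⟩ := cat' L κ K τ l₀ ⟨hτ, g1, g3⟩ χ hμ₀χ
  refine ⟨h5, h6, ?_⟩
  intro M hM
  have hκχ : κ < χ := (Order.succ_le_iff.1 g1).trans_le hμ₀χ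
  obtain ⟨φ⟩ := (typ' L κ K τ hτ).2 χ hκχ h5 M M.α hM hM
  exact sparse_of_emb φ.symm.toEmbedding (sparse_W τ M.α)

end Pool.Agent.AEC.S.H70
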