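import Pool.Agent.Helper34_AEC.S_NCP

/-!
Elements of `E(J)` which do not depend on some coordinates.
-/

set_option autoImplicit false

open FirstOrder FirstOrder.Language Cardinal Set

universe u

namespace Pool.Agent.AEC.S.H70

open Pool.Agent.AEC.S.H34

variable {L : FirstOrder.Language.{u, u}} {κ : Cardinal.{u}} {K : AEC L κ} (E : K.EM)

theorem map_eq_of_eq {n : ℕ} {i : Fin n} {y : (E.obj (F.{u} n)).α}
    (H : E.map (ae i) y = E.map (be i) y) {J : Type u} [LinearOrder J]
    (a b : F.{u} n ↪o J) (h : ∀ j : F.{u} n, j.down ≠ i → a j = b j) :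
    E.map a y = E.map b y := by
  rcases lt_trichotomy (a ⟨i⟩) (b ⟨i⟩) with hlt | heq | hlt
  · obtain ⟨g, h1, h2⟩ := glue i a b h hlt
    rw [E.map_comp (ae i) g a h1, E.map_comp (be i) g b h2, H]
  · have : a = b := by
      refine DFunLike.ext _ _ fun j => ?_
      by_cases hj : j.down = i
      · have : j = ⟨i⟩ := by rw [← hj]
        rw [this]; exact heq
      · exact h j hj
    rw [this]
  · obtain ⟨g, h1, h2⟩ := glue i b a (fun j hj => (h j hj).symm) hlt
    rw [E.map_comp (be i) g a h2, E.map_comp (ae i) g b h1, H]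

theorem map_ne_of_ne {n : ℕ} {i : Fin n} {y : (E.obj (F.{u} n)).α}
    (H : E.map (ae i) y ≠ E.map (be i) y) {J : Type u} [LinearOrder J]
    (a b : F.{u} n ↪o J) (h : ∀ j : F.{u} n, j.down ≠ i → a j = b j) (hne : a ⟨i⟩ ≠ b ⟨i⟩) :
    E.map a y ≠ E.map b y := by
  intro hab
  apply H
  rcases lt_or_gt_of_ne hne with hlt | hlt
  · obtain ⟨g, h1, h2⟩ := glue i a b h hlt
    rw [E.map_comp (ae i) g a h1, E.map_comp (be i) g b h2] at hab
    exact (E.map g).injective hab
  · obtain ⟨g, h1, h2⟩ := glue i b a (fun j hj => (h j hj).symm) hlt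
    rw [E.map_comp (be i) g a h2, E.map_comp (ae i) g b h1] at hab
    exact ((E.map g).injective hab).symm

/-- the embedding which is `a` below `k` and `c` above -/
def mix {n : ℕ} {J : Type u} [LinearOrder J] (a c : F.{u} n ↪o J) (h : ∀ j, a j ≤ c j) (k : ℕ) :
    F.{u} n ↪o J :=
  OrderEmbedding.ofStrictMono (fun j => if j.down.val < k then a j else c j) (by
    intro j j' hj
    have h' : j.down.val < j'.down.val := hj
    show (if j.down.val < k then a j else c j) < (if j'.down.val < k then a j' else c j')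
    by_cases c1 : j'.down.val < k
    · rw [if_pos (by omega), if_pos c1]
      exact a.strictMono hj
    · rw [if_neg c1]
      by_cases c2 : j.down.val < k
      · rw [if_pos c2]
        exact (a.strictMono hj).trans_le (h j')
      · rw [if_neg c2]
        exact c.strictMono hj)

theorem mix_val {n : ℕ} {J : Type u} [LinearOrder J] (a c : F.{u} n ↪o J) (h : ∀ j, a j ≤ c j)
    (k : ℕ) (j : F.{u} n) : mix a c h k j = if j.down.val < k then a j else c j := rfl

theorem map_eq_of_le {n : ℕ} {y : (E.obj (F.{u} n)).α} {J : Type u} [LinearOrder J]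
    (a c : F.{u} n ↪o J) (h : ∀ j, a j ≤ c j)
    (H : ∀ i : Fin n, a ⟨i⟩ = c ⟨i⟩ ∨ E.map (ae i) y = E.map (be i) y) :
    E.map a y = E.map c y := by
  have key : ∀ k : ℕ, k ≤ n → E.map (mix a c h k) y = E.map c y := by
    intro k
    induction k with
    | zero =>
      intro _
      have : mix a c h 0 = c := by
        refine DFunLike.ext _ _ fun j => ?_
        rw [mix_val, if_neg (by omega)]
      rw [this]
    | succ k ih =>
      intro hk
      rw [← ih (by omega)]
      rcases H ⟨k, by omega⟩ with h1 | h1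
      · have : mix a c h (k + 1) = mix a c h k := by
          refine DFunLike.ext _ _ fun j => ?_
          rw [mix_val, mix_val]
          by_cases c1 : j.down.val < k
          · rw [if_pos c1, if_pos (by omega)]
          · rw [if_neg c1]
            by_cases c2 : j.down.val = k
            · rw [if_pos (by omega)]
              have : j = ⟨⟨k, by omega⟩⟩ := by
                apply ULift.ext
                exact Fin.ext c2
              rw [this]
              exact h1
            · rw [if_neg (by omega)]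
        rw [this]
      · refine map_eq_of_eq E h1 _ _ ?_
        intro j hj
        have hjk : j.down.val ≠ k := fun h => hj (Fin.ext h)
        rw [mix_val, mix_val]
        by_cases c : j.down.val < k
        · rw [if_pos c, if_pos (by omega)]
        · rw [if_neg c, if_neg (by omega)]
  rw [← key n le_rfl]
  have : mix a c h n = a := by
    refine DFunLike.ext _ _ fun j => ?_
    rw [mix_val, if_pos j.down.2]
  rw [this]

theorem map_eq_of_agree {n : ℕ} {y : (E.obj (F.{u} n)).α} {J : Type u} [LinearOrder J]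
    (a b : F.{u} n ↪o J)
    (H : ∀ i : Fin n, a ⟨i⟩ = b ⟨i⟩ ∨ E.map (ae i) y = E.map (be i) y) :
    E.map a y = E.map b y := by
  let c : F.{u} n ↪o J := OrderEmbedding.ofStrictMono (fun j => max (a j) (b j)) (by
    intro j j' hj
    exact max_lt_max (a.strictMono hj) (b.strictMono hj))
  have hc : ∀ j, c j = max (a j) (b j) := fun j => rfl
  rw [map_eq_of_le E a c (fun j => by rw [hc]; exact le_max_left _ _) (fun i => by
      rcases H i with h | h
      · left; rw [hc, h, max_self]
      · right; exact h),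
    map_eq_of_le E b c (fun j => by rw [hc]; exact le_max_right _ _) (fun i => by
      rcases H i with h | h
      · left; rw [hc, h, max_self]
      · right; exact h)]

theorem exists_sens {J : Type u} [LinearOrder J] (P D : Set J) (hP : #P ≤ κ)
    (B : Set (E.obj J).α) (hB : κ < #B)
    (hBD : ∀ s ∈ B, s ∈ Set.range (E.map (OrderEmbedding.subtype fun i : J => i ∈ D))) :
    ∃ s ∈ B, ∃ (n : ℕ) (y : (E.obj (F.{u} n)).α) (a : F.{u} n ↪o J) (i : Fin n),
      E.map a y = s ∧ (∀ j, a j ∈ D) ∧ a ⟨i⟩ ∉ P ∧ E.map (ae i) y ≠ E.map (be i) y := by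
  classical
  by_contra hcon
  push Not at hcon
  have h0 : ∀ s : B, ∃ (n : ℕ) (y : (E.obj (F.{u} n)).α) (a : F.{u} n ↪o J),
      E.map a y = s.1 ∧ ∀ j, a j ∈ D := by
    intro s
    obtain ⟨z, hz⟩ := hBD s.1 s.2
    obtain ⟨n, y, a, ha⟩ := three E z
    refine ⟨n, y, a.trans (OrderEmbedding.subtype fun i : J => i ∈ D), ?_, fun j => (a j).2⟩
    rw [E.map_comp a (OrderEmbedding.subtype fun i : J => i ∈ D) _ (fun _ => rfl), ha, hz]
  choose n y a h1 h2 using h0
  have h3 : ∀ (s : B) (i : Fin (n s)), a s ⟨i⟩ ∈ P ∨ E.map (ae i) (y s) = E.map (be i) (y s) := by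
    intro s i
    by_cases h : a s ⟨i⟩ ∈ P
    · exact Or.inl h
    · exact Or.inr (hcon s.1 s.2 (n s) (y s) (a s) i (h1 s) (h2 s) h)
  let code : B → Σ m : ULift.{u} ℕ, (E.obj (F.{u} m.down)).α × (F.{u} m.down → Option P) :=
    fun s => ⟨⟨n s⟩, y s, fun j => if h : a s j ∈ P then some ⟨a s j, h⟩ else none⟩
  have hinj : Function.Injective code := by
    have gen : ∀ (p q : Σ m : ULift.{u} ℕ, (E.obj (F.{u} m.down)).α ×
        (F.{u} m.down → Option P)) (a : F.{u} p.1.down ↪o J) (b : F.{u} q.1.down ↪o J), p = q →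
        (∀ j, p.2.2 j = if h : a j ∈ P then some ⟨a j, h⟩ else none) →
        (∀ j, q.2.2 j = if h : b j ∈ P then some ⟨b j, h⟩ else none) →
        (∀ i : Fin p.1.down, a ⟨i⟩ ∈ P ∨ E.map (ae i) p.2.1 = E.map (be i) p.2.1) →
        E.map a p.2.1 = E.map b q.2.1 := by
      intro p q a b hpq hp hq H
      subst hpq
      apply map_eq_of_agree
      intro i
      rcases H i with h | h
      · left
        have e1 := hp ⟨i⟩
        have e2 := hq ⟨i⟩
        rw [dif_pos h] at e1
        by_cases hb : b ⟨i⟩ ∈ P
        · rw [dif_pos hb, e1] at e2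
          have e3 := Option.some_injective _ e2
          exact congrArg Subtype.val e3
        · rw [dif_neg hb, e1] at e2
          exact absurd e2 (by simp)
      · right
        exact h
    intro s s' hs
    have h4 := gen _ _ (a s) (a s') hs (fun j => rfl) (fun j => rfl) (h3 s)
    have h5 : E.map (a s) (y s) = E.map (a s') (y s') := h4
    rw [h1, h1] at h5
    exact Subtype.ext h5
  have hκ := K.aleph0_le
  have h4 := Cardinal.mk_le_of_injective hinj
  have h5 : #(Σ m : ULift.{u} ℕ, (E.obj (F.{u} m.down)).α × (F.{u} m.down → Option P)) ≤ κ := by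
    rw [Cardinal.mk_sigma]
    have h3 : (Cardinal.sum fun m : ULift.{u} ℕ =>
        #((E.obj (F.{u} m.down)).α × (F.{u} m.down → Option P))) ≤
        Cardinal.sum fun _ : ULift.{u} ℕ => κ := by
      refine Cardinal.sum_le_sum _ _ fun m => ?_
      rw [Cardinal.mk_prod, Cardinal.lift_id, Cardinal.lift_id]
      refine (mul_le_mul' ?_ ?_).trans (Cardinal.mul_eq_self hκ).le
      · refine (E.card_le (F.{u} m.down)).trans ?_
        refine Cardinal.add_le_of_le hκ ?_ le_rfl
        exact (Cardinal.lt_aleph0_of_finite _).le.trans hκ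
      · have h6 : #(Option P) ≤ κ := by
          rw [Cardinal.mk_option]
          exact Cardinal.add_le_of_le hκ hP (Cardinal.one_le_aleph0.trans hκ)
        have h7 : #(F.{u} m.down → Option P) = #(Option P) ^ #(F.{u} m.down) := by
          rw [Cardinal.power_def]
        rw [h7]
        refine (Cardinal.power_le_power_right h6).trans ?_
        obtain ⟨k, hk⟩ := Cardinal.lt_aleph0.1 (Cardinal.lt_aleph0_of_finite (F.{u} m.down))
        rw [hk]
        exact Cardinal.power_nat_le hκ
    refine h3.trans ?_
    rw [Cardinal.sum_const']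
    have h4 : #(ULift.{u} ℕ) = ℵ₀ := by
      rw [Cardinal.mk_uLift, Cardinal.mk_nat, Cardinal.lift_aleph0]
    rw [h4, Cardinal.aleph0_mul_eq hκ]
  exact absurd (h4.trans h5) (not_le.2 hB)

end Pool.Agent.AEC.S.H70
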