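import Pool.Agent.AEC.StmtsS

set_option autoImplicit false

open FirstOrder FirstOrder.Language Cardinal Set

universe u

noncomputable section

namespace Pool.Agent.AEC.S.H70

theorem sfn (hn2 : Hn2Stmt.{u}) (tpa : TpaStmt.{u}) (tpb : TpbStmt.{u}) (emx : EmxStmt.{u})
    (orb : OrbStmt.{u}) (tpl : TplStmt.{u}) (cat : CatStmt.{u}) : SfnStmt.{u} := by
  intro κ
  obtain ⟨μ, hμ⟩ := hn2 κ
  refine ⟨μ, ?_⟩
  intro L _ K hK hcat χ hχ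
  obtain ⟨hl, l₀, h1, h2, h3⟩ := hμ L K hcat
  obtain ⟨p, hp⟩ := tpa L κ K hl
  have hE := emx L κ K (tpb L κ K p hp)
  obtain ⟨τ, hτ⟩ := tpl L κ K (orb L κ K hK hE)
  exact cat L κ K τ l₀ ⟨hτ, h1, h3⟩ χ (h2.trans hχ)

end Pool.Agent.AEC.S.H70
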