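import Pool.Agent.AEC.StmtsS

set_option autoImplicit false

open FirstOrder FirstOrder.Language Cardinal Set

universe u

noncomputable section

namespace Pool.Agent.AEC.S.H70

variable {L : FirstOrder.Language.{u, u}} {κ : Cardinal.{u}}

theorem untagged_small (τ : Tpl L κ) (T : Type u) : #{x : W τ T | x.tag = none} ≤ κ := by
  refine le_trans (mk_le_of_injective (f := fun x : {x : W τ T | x.tag = none} => x.1.pr) ?_)
    τ.card
  rintro ⟨x, hx⟩ ⟨y, hy⟩ h
  rcases x with x | x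
  · rcases y with y | y
    · have : x = y := Subtype.ext h
      subst this
      rfl
    · exact absurd hy (by intro h; cases h)
  · exact absurd hx (by intro h; cases h)

theorem xv_small [L.IsRelational] (xvw : XvwStmt.{u}) (typ : TypStmt.{u}) (aut : AutStmt.{u})
    (K : AEC L κ) (τ : Tpl L κ) (l : Cardinal.{u}) (h : HL K τ l) (M : K.Mod)
    (hM : #M.α = l) : #(Xv L κ M.α) ≤ κ := by
  have hl : κ < l := lt_of_lt_of_le (Order.lt_succ κ) h.2.1
  obtain ⟨φ⟩ := (typ L κ K τ h.1).2 l hl h.2.2 M M.α hM hM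
  have h1 := (aut L κ _ _ φ).2.2.1
  rw [← h1]
  refine mk_image_le.trans ?_
  refine le_trans (mk_le_mk_of_subset ?_) (untagged_small τ M.α)
  intro x hx
  exact (xvw L κ τ M.α K.aleph0_le (by rw [hM]; exact hl)).1 x hx

theorem fr1 (sta : StaStmt.{u}) (fra : FraStmt.{u}) (frm : FrmStmt.{u}) (gfr : GfrStmt.{u})
    (xvw : XvwStmt.{u}) (typ : TypStmt.{u}) (aut : AutStmt.{u}) (svc : SvcStmt.{u}) :
    Fr1Stmt.{u} := by
  intro L _ κ K τ l hl M hM
  let NF : Set M.α := {x | x ∉ Sv L κ M.α ∧ x ∉ Fr l M}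
  have hNF : #NF ≤ κ := by
    refine le_trans (mk_le_mk_of_subset ?_) (xv_small xvw typ aut K τ l hl M hM)
    intro x hx
    by_contra hcon
    exact hx.2 (gfr L κ K τ l hl M x hM hcon)
  obtain ⟨N, e, hN, hst⟩ := sta L κ K l M (fun B e => Fr l B ∩ e '' NF) hl.2.1 hM
    (fun B e _ => (mk_le_mk_of_subset inter_subset_right).trans (mk_image_le.trans hNF))
    (fun B C e f hB hC => by
      rintro _ ⟨y, ⟨hy1, x, hx, rfl⟩, rfl⟩
      exact ⟨(frm L κ K τ l hl).1 B C f hB hC ⟨_, hy1, rfl⟩, x, hx, rfl⟩)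
  refine ⟨N, e, hN, ?_⟩
  intro x hx
  by_cases hxF : x ∈ Fr l M
  · exact (frm L κ K τ l hl).1 M N e hM hN ⟨x, hxF, rfl⟩
  · by_contra hcon
    have h1 : e x ∉ Sv L κ N.α := by
      rw [svc L κ K τ l hl M N e hM hN]
      rintro ⟨y, hy, hyx⟩
      have := e.injective hyx
      subst this
      exact hx hy
    obtain ⟨N', g, hN', hg⟩ := fra L κ K τ l hl N (e x) hN h1
    have h2 : g (e x) ∈ Fr l N' ∩ (g.comp e) '' NF := ⟨hg, x, ⟨hx, hxF⟩, rfl⟩
    have h3 := hst N' g hN'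
    change Fr l N' ∩ (g.comp e) '' NF = g '' (Fr l N ∩ e '' NF) at h3
    rw [h3] at h2
    obtain ⟨z, ⟨hz, -⟩, hzx⟩ := h2
    have := g.injective hzx
    subst this
    exact hcon hz

end Pool.Agent.AEC.S.H70
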