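import Pool.Agent.Helper70_AEC.S_FR1

set_option autoImplicit false

open FirstOrder FirstOrder.Language Cardinal Set

universe u

noncomputable section

namespace Pool.Agent.AEC.S.H70

variable {L : FirstOrder.Language.{u, u}} {κ : Cardinal.{u}}

theorem gfr (bgr : BgrStmt.{u}) (fra : FraStmt.{u}) (frm : FrmStmt.{u})
    (xvw : XvwStmt.{u}) (wgr : WgrStmt.{u}) (typ : TypStmt.{u}) (aut : AutStmt.{u}) :
    GfrStmt.{u} := by
  intro L _ κ K τ l hl M₀ x₀ hM₀ hx₀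
  by_contra hx₀F
  have hκl : κ < l := lt_of_lt_of_le (Order.lt_succ κ) hl.2.1
  obtain ⟨hmono, hinv, hcomp⟩ := frm L κ K τ l hl
  -- all members of cardinality `l` are `W τ T`
  let T := M₀.α
  have hT : κ < #T := by rw [hM₀]; exact hκl
  obtain ⟨hx1, hx2, hx3⟩ := xvw L κ τ T K.aleph0_le hT
  obtain ⟨hw1, hw2, hw3⟩ := wgr L κ τ T K.aleph0_le hT
  have htag : ∀ (M : K.Mod), #M.α = l → ∀ x : M.α, x ∉ Xv L κ M.α →
      ∃ (φ : W τ T ≃[L] M.α) (t : T) (a : τ.A), φ (W.hi t a) = x := by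
    intro M hM x hx
    obtain ⟨φ⟩ := (typ L κ K τ hl.1).2 l hκl hl.2.2 M T hM hM₀
    have h1 : φ.symm x ∉ Xv L κ (W τ T) := by
      intro h
      have h2 := (aut L κ _ _ φ).2.2.1
      apply hx
      rw [← h2]
      exact ⟨_, h, φ.apply_symm_apply x⟩
    obtain ⟨e, -, he⟩ := hx3 _ h1
    have h3 : ∀ y : W τ T, y.tag ≠ none → ∃ (t : T) (a : τ.A), y = W.hi t a := by
      intro y hy
      rcases y with y | y
      · exact absurd rfl hy
      · exact ⟨y.1, y.2, rfl⟩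
    obtain ⟨t, a, hta⟩ := h3 _ he
    refine ⟨φ.comp e.symm, t, a, ?_⟩
    change φ (e.symm (W.hi t a)) = x
    rw [← hta, e.symm_apply_apply, φ.apply_symm_apply]
  have hcl : ∀ M : K.Mod, #M.α = l → Fr l M ⊆ Xv L κ M.α := by
    intro M hM x hx
    by_contra hxX
    obtain ⟨φ, t, a, hφ⟩ := htag M hM x hxX
    obtain ⟨φ₀, t₀, a₀, hφ₀⟩ := htag M₀ hM₀ x₀ hx₀
    classical
    -- an isomorphism
    let σ : W τ T ≃[L] W τ T := W.eqv (Equiv.swap t t₀)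
    have hσ : σ (W.hi t a) = W.hi t₀ a := by
      change W.fn (Equiv.swap t t₀) (W.hi t a) = W.hi t₀ a
      change Sum.inr (Equiv.swap t t₀ t, a) = Sum.inr (t₀, a)
      rw [Equiv.swap_apply_left]
    let θ : M.α ≃[L] M₀.α := (φ₀.comp σ).comp φ.symm
    have hθ : θ x = φ₀ (W.hi t₀ a) := by
      change φ₀ (σ (φ.symm x)) = _
      rw [← hφ, φ.symm_apply_apply, hσ]
    have h1 : φ₀ (W.hi t₀ a) ∈ Fr l M₀ := by
      rw [← hinv M M₀ θ hM]
      exact ⟨x, hx, hθ⟩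
    apply hx₀F
    refine hcomp M₀ _ x₀ hM₀ h1 ?_
    have h2 := (aut L κ _ _ φ₀).2.2.2.1 (Sv L κ (W τ T)) (W.hi t₀ a)
    rw [(aut L κ _ _ φ₀).2.1, hw2] at h2
    rw [← h2]
    exact ⟨W.hi t₀ a₀, rfl, hφ₀⟩
  have hb := bgr L κ K l (fun B => Fr l B) hl.2.1 hl.2.2
    (fun A hA => (mk_le_mk_of_subset (hcl A hA)).trans (xv_small xvw typ aut K τ l hl A hA))
    (fun A B e hA => hinv A B e hA) (fun A B f hA hB => hmono A B f hA hB)
  have hs : x₀ ∉ Sv L κ M₀.α := by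
    intro h
    apply hx₀
    obtain ⟨φ⟩ := (typ L κ K τ hl.1).2 l hκl hl.2.2 M₀ T hM₀ hM₀
    rw [← (aut L κ _ _ φ).2.1] at h
    rw [← (aut L κ _ _ φ).2.2.1]
    exact image_mono hx2 h
  obtain ⟨N, e, hN, he⟩ := fra L κ K τ l hl M₀ x₀ hM₀ hs
  have h1 := hb M₀ N e hM₀ hN
  change Fr l N = e '' Fr l M₀ at h1
  rw [h1] at he
  obtain ⟨z, hz, hzx⟩ := he
  have := e.injective hzx
  subst this
  exact hx₀F hz

end Pool.Agent.AEC.S.H70
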