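import Pool.Agent.AEC.StmtsS

set_option autoImplicit false

open FirstOrder FirstOrder.Language Cardinal Set

universe u

namespace Pool.Agent.AEC.S.H70

theorem hn2 (sml : SmlStmt.{u}) (lng : LngStmt.{u}) : Hn2Stmt.{u} := by
  intro κ
  classical
  let T := Σ F : ℕ → Set κ.out, Σ R : ℕ → Set κ.out, AEC (codeLang F R) κ
  have hsm : ∀ F R : ℕ → Set κ.out, Small.{u} (AEC (codeLang F R) κ) := fun F R => sml _ κ
  have hT : Small.{u} T := inferInstance
  let b : T → Cardinal.{u} := fun t =>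
    if h : ∃ m : Cardinal.{u}, ∀ l, t.2.2.Cat l → l ≤ m then h.choose else
      if h : ∃ l : Cardinal.{u}, Order.succ κ ≤ l ∧ t.2.2.Cat l then h.choose else 0
  obtain ⟨B, hB⟩ : BddAbove (Set.range b) := Cardinal.bddAbove_of_small
  refine ⟨Order.succ B, fun L K => ?_⟩
  rintro ⟨l, hl, hc⟩
  obtain ⟨F, R, K0, h0⟩ := lng L κ K
  have hb : ¬ ∃ m : Cardinal.{u}, ∀ l, K0.Cat l → l ≤ m := by
    intro hb
    have h1 : b ⟨F, R, K0⟩ = hb.choose := dif_pos hb
    have h2 : l ≤ b ⟨F, R, K0⟩ := by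
      rw [h1]
      exact hb.choose_spec l ((h0 l).1.1 hc)
    have h3 : b ⟨F, R, K0⟩ ≤ B := hB ⟨_, rfl⟩
    exact absurd (hl.trans (h2.trans h3)) (not_le.2 (Order.lt_succ _))
  have hb2 := hb
  push Not at hb
  constructor
  · intro m
    obtain ⟨l', hl', hml'⟩ := hb m
    obtain ⟨⟨M, hM⟩, -⟩ := (h0 l').1.2 hl'
    exact ⟨M, by rw [hM]; exact hml'.le⟩
  · have hex : ∃ l : Cardinal.{u}, Order.succ κ ≤ l ∧ K0.Cat l := by
      obtain ⟨l', hl', hml'⟩ := hb (Order.succ κ)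
      exact ⟨l', hml'.le, hl'⟩
    have h1 : b ⟨F, R, K0⟩ = hex.choose := by
      change (if h : ∃ m : Cardinal.{u}, ∀ l, K0.Cat l → l ≤ m then h.choose else
        if h : ∃ l : Cardinal.{u}, Order.succ κ ≤ l ∧ K0.Cat l then h.choose else 0) = _
      rw [dif_neg hb2, dif_pos hex]
    have h3 : b ⟨F, R, K0⟩ ≤ B := hB ⟨_, rfl⟩
    refine ⟨hex.choose, hex.choose_spec.1, ?_, (h0 _).1.2 hex.choose_spec.2⟩
    rw [← h1]
    exact h3.trans (Order.le_succ B)

end Pool.Agent.AEC.S.H70
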