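import Pool.Agent.AEC.StmtsS

set_option autoImplicit false

open FirstOrder FirstOrder.Language Cardinal Set

universe u

noncomputable section

namespace Pool.Agent.AEC.S.H70

variable {L : FirstOrder.Language.{u, u}} {κ : Cardinal.{u}}

theorem emb_incl_congr (K : AEC L κ) {U : Type u} [L.Structure U] {S S' T T' : L.Substructure U}
    (hS : S = S') (hT : T = T') (h : S ≤ T) (h' : S' ≤ T')
    (H : K.emb (Substructure.inclusion h)) : K.emb (Substructure.inclusion h') := by
  subst hS hT
  exact H

variable [L.IsRelational]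

/-- the elements with tag in `X` -/
def G (τ : Tpl L κ) {T : Type u} (X : Set T) : L.Substructure (W τ T) :=
  (W.emb (τ := τ) (Function.Embedding.subtype (· ∈ X))).toHom.range

theorem mem_G {τ : Tpl L κ} {T : Type u} {X : Set T} {x : W τ T} :
    x ∈ G τ X ↔ ∀ t, x.tag = some t → t ∈ X := by
  constructor
  · rintro ⟨z, rfl⟩ t ht
    have h1 : (W.fn (Subtype.val : X → T) z).tag = some t := ht
    rw [W.tag_fn, Option.map_eq_some_iff] at h1
    obtain ⟨a, -, rfl⟩ := h1
    exact a.2
  · intro h
    rcases x with x | x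
    · exact ⟨Sum.inl x, rfl⟩
    · exact ⟨Sum.inr (⟨x.1, h x.1 rfl⟩, x.2), rfl⟩

theorem G_mono (τ : Tpl L κ) {T : Type u} : Monotone (G τ : Set T → _) := by
  intro X Y h x hx
  rw [mem_G] at hx ⊢
  exact fun t ht => h (hx t ht)

theorem G_emb (K : AEC L κ) (τ : Tpl L κ) (hτ : ∀ (T T' : Type u) (f : T ↪ T'),
    #T = κ → #T' = κ → K.emb (W.emb (τ := τ) f)) {T : Type u} {X Y : Set T} (h : X ⊆ Y)
    (hX : #X = κ) (hY : #Y = κ) : K.emb (Substructure.inclusion (G_mono τ h)) := by
  let f : X ↪ Y := ⟨Set.inclusion h, Set.inclusion_injective h⟩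
  have h1 : K.emb (W.emb (τ := τ) f) := hτ _ _ f hX hY
  let a := (W.emb (τ := τ) (Function.Embedding.subtype (· ∈ X))).equivRange
  let b := (W.emb (τ := τ) (Function.Embedding.subtype (· ∈ Y))).equivRange
  have ha : K.emb a.toEmbedding := K.iso (K.dom h1) _
  have ha' : K.emb a.symm.toEmbedding := K.iso (K.cod ha) _
  have hb : K.emb b.toEmbedding := K.iso (K.cod h1) _
  have h2 : Substructure.inclusion (G_mono τ h) =
      b.toEmbedding.comp ((W.emb (τ := τ) f).comp a.symm.toEmbedding) := by
    ext x
    obtain ⟨z, rfl⟩ := a.surjective x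
    have h3 : a.symm.toEmbedding (a z) = z := a.symm_apply_apply z
    have h4 : ((b.toEmbedding.comp ((W.emb (τ := τ) f).comp a.symm.toEmbedding)) (a z) :
        G τ Y) = b (W.emb (τ := τ) f z) := by
      change b (W.emb (τ := τ) f (a.symm.toEmbedding (a z))) = _
      rw [h3]
    refine Eq.trans ?_ (congrArg Subtype.val h4).symm
    change W.fn Subtype.val z = W.fn Subtype.val (W.fn f z)
    rw [W.fn_fn]
    rfl
  rw [h2]
  exact K.comp (K.comp ha' h1) hb

theorem tpl (tp1 : Tp1Stmt.{u}) (fin : FinStmt.{u}) : TplStmt.{u} := by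
  intro L _ κ K hO
  obtain ⟨τ, hτ⟩ := tp1 L κ K hO
  refine ⟨τ, ?_⟩
  intro T T' f hT
  have h1 : κ ≤ #(Set.range f) := by
    rw [mk_range_eq f f.injective]
    exact hT
  obtain ⟨J, hJ, hJκ⟩ := le_mk_iff_exists_subset.1 h1
  have hκ := K.aleph0_le
  have hc : ∀ s : Finset T', #((J ∪ (s : Set T')) : Set T') = κ := by
    intro s
    apply le_antisymm
    · refine (mk_union_le _ _).trans ?_
      rw [hJκ]
      have : #(s : Set T') ≤ κ := by
        have h2 : #(s : Set T') < ℵ₀ := lt_aleph0_iff_finite.2 (s.finite_toSet)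
        exact h2.le.trans hκ
      exact (add_le_add le_rfl this).trans (add_eq_self hκ).le
    · rw [← hJκ]
      exact mk_le_mk_of_subset subset_union_left
  let M : Finset T' → L.Substructure (W τ T') := fun s => G τ (J ∪ (s : Set T'))
  have mono : Monotone M := fun s t h => G_mono τ (union_subset_union_right J (by exact_mod_cast h))
  have hM : ∀ s t (h : s ≤ t), K.emb (Substructure.inclusion (mono h)) := fun s t h =>
    G_emb K τ hτ (union_subset_union_right J (by exact_mod_cast h)) (hc s) (hc t)
  have h2 := fin L κ K (W τ T') T' M mono hM (Set.range f) Set.univ (subset_univ _)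
  have hdir : ∀ A : Set T', Directed (· ≤ ·)
      (fun s : {s : Finset T' // (s : Set T') ⊆ A} => M s.1) := by
    classical
    intro A s t
    refine ⟨⟨s.1 ∪ t.1, by rw [Finset.coe_union]; exact union_subset s.2 t.2⟩, ?_, ?_⟩
    · exact mono Finset.subset_union_left
    · exact mono Finset.subset_union_right
  have hmem : ∀ A : Set T', J ⊆ A → unionOver M A = G τ A := by
    intro A hA
    ext x
    have : Nonempty {s : Finset T' // (s : Set T') ⊆ A} := ⟨⟨∅, by simp⟩⟩
    rw [unionOver, Substructure.mem_iSup_of_directed (hdir A)]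
    constructor
    · rintro ⟨s, hs⟩
      rw [mem_G] at hs ⊢
      intro t ht
      exact (union_subset hA s.2) (hs t ht)
    · intro h
      rw [mem_G] at h
      rcases hx : x.tag with _ | t
      · refine ⟨⟨∅, by simp⟩, ?_⟩
        rw [mem_G]
        intro t ht
        rw [hx] at ht
        exact absurd ht (by simp)
      · refine ⟨⟨{t}, by simpa using h t hx⟩, ?_⟩
        rw [mem_G]
        intro t' ht'
        rw [hx] at ht'
        have : t = t' := Option.some_injective _ ht'
        subst this
        right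
        simp
  have htop : G τ (Set.univ : Set T') = ⊤ := by
    ext x
    rw [mem_G]
    simp
  have hrange : G τ (Set.range f) = (W.emb (τ := τ) f).toHom.range := by
    ext x
    rw [mem_G]
    constructor
    · intro h
      rcases x with x | x
      · exact ⟨Sum.inl x, rfl⟩
      · obtain ⟨t, ht⟩ := h x.1 rfl
        refine ⟨Sum.inr (t, x.2), ?_⟩
        change Sum.inr (f t, x.2) = _
        rw [ht]
    · rintro ⟨z, rfl⟩ t ht
      have h3 : (W.fn f z).tag = some t := ht
      rw [W.tag_fn, Option.map_eq_some_iff] at h3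
      obtain ⟨a, -, rfl⟩ := h3
      exact ⟨a, rfl⟩
  have h3 : K.emb (Substructure.inclusion (le_top : (W.emb (τ := τ) f).toHom.range ≤ ⊤)) :=
    emb_incl_congr K ((hmem _ hJ).trans hrange) ((hmem _ (subset_univ _)).trans htop) _ _ h2
  have h4 : K.emb (Substructure.topEquiv (L := L) (M := W τ T')).toEmbedding :=
    K.iso (K.cod h3) _
  have h5 : K.emb (W.emb (τ := τ) f).equivRange.toEmbedding := by
    have h6 : K.emb (W.emb (τ := τ) f).equivRange.symm.toEmbedding := K.iso (K.dom h3) _
    exact K.iso (K.cod h6) _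
  have h7 : W.emb (τ := τ) f = (Substructure.topEquiv (L := L) (M := W τ T')).toEmbedding.comp
      ((Substructure.inclusion (le_top : (W.emb (τ := τ) f).toHom.range ≤ ⊤)).comp
        (W.emb (τ := τ) f).equivRange.toEmbedding) := by
    ext x
    rfl
  rw [h7]
  exact K.comp (K.comp h5 h3) h4

end Pool.Agent.AEC.S.H70
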