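import Pool.Agent.Helper70_AEC.S_ORD
import Pool.Agent.Helper34_AEC.S_NCP
import Pool.Agent.Helper77_AEC.S_SEP
import Pool.Agent.Helper56_AEC.S_ORB
import Pool.Agent.Helper46_AEC.S_CLO
import Pool.Agent.Helper18_AEC.S_PRM
import Pool.Agent.Helper48_AEC.S_TP1
import Pool.Agent.Helper70_AEC.S_TPL
import Pool.Agent.Helper9_AEC.S_STA
import Pool.Agent.Helper94_AEC.S_BGR
import Pool.Agent.Helper79_AEC.S_WGR
import Pool.Agent.Helper84_AEC.S_AUT
import Pool.Agent.Helper52_AEC.S_XVW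
import Pool.Agent.Helper3_AEC.S_TYP
import Pool.Agent.Helper33_AEC.S_SWP
import Pool.Agent.Helper45_AEC.S_SVC
import Pool.Agent.Helper6_AEC.S_FRA
import Pool.Agent.Helper6_AEC.S_FRM
import Pool.Agent.Helper70_AEC.S_GFR
import Pool.Agent.Helper70_AEC.S_FR1
import Pool.Agent.Helper44_AEC.S_FRZ
import Pool.Agent.Helper59_AEC.S_XVC
import Pool.Agent.Helper24_AEC.S_GOD
import Pool.Agent.Helper94_AEC.S_ASM
import Pool.Agent.Helper17_AEC.SPAR
import Pool.Agent.Helper44_AEC.S_CAT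
import Pool.Agent.Helper70_AEC.S_HN2
import Pool.Agent.Helper70_AEC.S_FIN
import Pool.Agent.Helper84_AEC.S_EXA
import Pool.Agent.Helper48_AEC.DIS
import Pool.Agent.Helper77_AEC.REL
import Pool.Agent.Helper41_AEC.FIN
import Pool.Agent.Helper69_AEC.DIR
import Pool.Agent.Helper41_AEC.DLM
import Pool.Agent.Helper51_AEC.DLU
import Pool.Agent.Helper24_AEC.PRS
import Pool.Agent.Helper51_AEC.EHS
import Pool.Agent.Helper52_AEC.ERD
import Pool.Agent.Helper18_AEC.TPS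
import Pool.Agent.Helper46_AEC.TPA
import Pool.Agent.Helper82_AEC.TPB
import Pool.Agent.Helper52_AEC.EMX
import Pool.Agent.Helper41_AEC.TRC
import Pool.Agent.Helper76_AEC.CCL
import Pool.Agent.Helper25_AEC.SMC
import Pool.Agent.Helper63_AEC.SML
import Pool.Agent.Helper84_AEC.LNG

/-!
# Theorem S: assembly
-/

set_option autoImplicit false

open FirstOrder FirstOrder.Language Cardinal Set

universe u

namespace Pool.Agent.AEC.S.H70

theorem fin' : FinStmt.{u} := AEC.H41.fin_ AEC.H77.rel_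
theorem dis' : DisStmt.{u} := AEC.H48.dis fin'
theorem dlm' : DlmStmt.{u} := AEC.H41.dlm (AEC.H69.dir fin')
theorem dlu' : DluStmt.{u} := AEC.H51.dlu dis'
theorem trc' : TrcStmt.{u} := AEC.H41.trc dlm' dlu'
theorem ccl' : CclStmt.{u} := AEC.H76.ccl
theorem tpa' : TpaStmt.{u} := AEC.H46.tpa AEC.H24.prs (AEC.H18.tps (AEC.H52.erd AEC.H51.ehs))
theorem emx' : EmxStmt.{u} := AEC.H52.emx dlm' dlu'
theorem sml' : SmlStmt.{u} := AEC.H63.sml (AEC.H25.smc fin')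
theorem orb' : OrbStmt.{u} := AEC.H56.s_orb ord AEC.S.H34.s_ncp AEC.S.H77.sep
theorem tpl' : TplStmt.{u} :=
  tpl (AEC.S.H48.s_tp1 (AEC.S.H46.s_clo dis') AEC.S.H18.prm) fin'
theorem sta' : StaStmt.{u} := AEC.S.H9.s_sta trc' dlm' ccl'
theorem bgr' : BgrStmt.{u} := AEC.S.H94.s_bgr sta'
theorem wgr' : WgrStmt.{u} := AEC.S.H79.s_wgr
theorem aut' : AutStmt.{u} := AEC.S.H84.s_aut
theorem xvw' : XvwStmt.{u} := AEC.S.H52.xvw wgr' aut'
theorem typ' : TypStmt.{u} := AEC.S.H3.typ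
theorem svc' : SvcStmt.{u} := AEC.H45.s_svc bgr' wgr' aut' typ'
theorem fra' : FraStmt.{u} := AEC.S.H6.fra sta' svc' wgr' aut' typ'
theorem frm' : FrmStmt.{u} := AEC.S.H6.frm svc' aut'
theorem gfr' : GfrStmt.{u} := gfr bgr' fra' frm' xvw' wgr' typ' aut'
theorem fr1' : Fr1Stmt.{u} := fr1 sta' fra' frm' gfr' xvw' typ' aut' svc'
theorem frz' : FrzStmt.{u} := AEC.H44.s_frz fr1' frm' svc' aut' trc' dlm' ccl'
theorem xvc' : XvcStmt.{u} := AEC.S.H59.xvc bgr' frz' svc' AEC.S.H33.s_swp xvw' wgr' aut' typ'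
theorem god' : GodStmt.{u} := AEC.S.H24.s_god xvc' frz' svc' xvw' wgr' aut' typ'
theorem par' : ParStmt.{u} := AEC.S.H17.par god' frz' svc' wgr' typ'
theorem cat' : CatStmt.{u} := AEC.H44.s_cat par' AEC.S.H94.s_asm typ'
theorem hn2' : Hn2Stmt.{u} := hn2 sml' AEC.H84.lng

/-- Theorem S. -/
theorem sfn_all : SfnStmt.{u} := sfn hn2' tpa' AEC.H82.tpb emx' orb' tpl' cat'

theorem exa_all : ExaStmt.{u} := AEC.S.H84.s_exa

end Pool.Agent.AEC.S.H70
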