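import Pool.Agent.AEC.StmtsS

set_option autoImplicit false

open Cardinal Ordinal Set

universe u

noncomputable section

namespace Pool.Agent.AEC.S.H70

variable {ι : Type u} [LinearOrder ι] [WellFoundedLT ι]

/-- translation by `c` in the coordinate `a` of the functions which vanish below `a` -/
def tl (a : ι) (c : ℤ) (f : Lex (ι → ℤ)) : Lex (ι → ℤ) := by
  classical
  exact if ∀ b < a, f b = 0 then toLex (fun i => if i = a then f i + c else f i) else f

open Classical in
theorem tl_apply (a : ι) (c : ℤ) (f : Lex (ι → ℤ)) (i : ι) :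
    tl a c f i = if (∀ b < a, f b = 0) ∧ i = a then f i + c else f i := by
  unfold tl
  by_cases h : ∀ b < a, f b = 0
  · rw [if_pos h]
    simp only [Pi.toLex_apply]
    by_cases h2 : i = a
    · rw [if_pos h2, if_pos ⟨h, h2⟩]
    · rw [if_neg h2, if_neg (fun h3 => h2 h3.2)]
  · rw [if_neg h, if_neg (fun h3 => h h3.1)]

theorem tl_below (a : ι) (c : ℤ) (f : Lex (ι → ℤ)) {b : ι} (hb : b < a) : tl a c f b = f b := by
  rw [tl_apply, if_neg]
  rintro ⟨_, rfl⟩
  exact lt_irrefl _ hb

theorem tl_tl (a : ι) (c : ℤ) (f : Lex (ι → ℤ)) : tl a (-c) (tl a c f) = f := by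
  have h0 : (∀ b < a, tl a c f b = 0) ↔ ∀ b < a, f b = 0 := by
    constructor
    · intro h b hb
      rw [← tl_below a c f hb]
      exact h b hb
    · intro h b hb
      rw [tl_below a c f hb]
      exact h b hb
  funext i
  rw [tl_apply, h0]
  by_cases h : (∀ b < a, f b = 0) ∧ i = a
  · rw [if_pos h, tl_apply, if_pos h]
    ring
  · rw [if_neg h, tl_apply, if_neg h]

theorem tl_strict (a : ι) (c : ℤ) : StrictMono (tl a c) := by
  intro f g hfg
  obtain ⟨i, hi, hlt⟩ := hfg
  have hi' : ∀ j < i, f j = g j := hi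
  have hlt' : f i < g i := hlt
  refine ⟨i, ?_, ?_⟩
  · intro j hj
    change tl a c f j = tl a c g j
    rw [tl_apply, tl_apply, hi' j hj]
    by_cases hja : j = a
    · subst hja
      have : (∀ b < j, f b = 0) ↔ ∀ b < j, g b = 0 := by
        constructor
        · intro h b hb
          rw [← hi' b (hb.trans hj)]; exact h b hb
        · intro h b hb
          rw [hi' b (hb.trans hj)]; exact h b hb
      by_cases h : ∀ b < j, f b = 0
      · rw [if_pos ⟨h, rfl⟩, if_pos ⟨this.1 h, rfl⟩]
      · rw [if_neg (fun h3 => h h3.1), if_neg (fun h3 => h (this.2 h3.1))]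
    · rw [if_neg (fun h => hja h.2), if_neg (fun h => hja h.2)]
  · change tl a c f i < tl a c g i
    rw [tl_apply, tl_apply]
    by_cases hia : i = a
    · subst hia
      have : (∀ b < i, f b = 0) ↔ ∀ b < i, g b = 0 := by
        constructor
        · intro h b hb
          rw [← hi' b hb]; exact h b hb
        · intro h b hb
          rw [hi' b hb]; exact h b hb
      by_cases h : ∀ b < i, f b = 0
      · rw [if_pos ⟨h, rfl⟩, if_pos ⟨this.1 h, rfl⟩]
        linarith
      · rw [if_neg (fun h3 => h h3.1), if_neg (fun h3 => h (this.2 h3.1))]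
        exact hlt'
    · rw [if_neg (fun h => hia h.2), if_neg (fun h => hia h.2)]
      exact hlt'

/-- the translation as an automorphism -/
def tli (a : ι) (c : ℤ) : Lex (ι → ℤ) ≃o Lex (ι → ℤ) :=
  (tl_strict a c).orderIsoOfRightInverse _ (tl a (-c)) (fun x => by
    have := tl_tl a (-c) x
    rwa [neg_neg] at this)

theorem noMin [Nonempty ι] : NoMinOrder (Lex (ι → ℤ)) := ⟨fun f => by
  obtain ⟨i₀, -, hi₀⟩ := WellFounded.has_min (wellFounded_lt (α := ι)) Set.univ Set.univ_nonempty
  refine ⟨toLex (fun i => f i - 1), i₀, ?_, ?_⟩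
  · intro j hj
    exact absurd hj (hi₀ j (Set.mem_univ j))
  · change f i₀ - 1 < f i₀
    omega⟩

theorem noMax [Nonempty ι] : NoMaxOrder (Lex (ι → ℤ)) := ⟨fun f => by
  obtain ⟨i₀, -, hi₀⟩ := WellFounded.has_min (wellFounded_lt (α := ι)) Set.univ Set.univ_nonempty
  refine ⟨toLex (fun i => f i + 1), i₀, ?_, ?_⟩
  · intro j hj
    exact absurd hj (hi₀ j (Set.mem_univ j))
  · change f i₀ < f i₀ + 1
    omega⟩

theorem ord : OrdStmt.{u} := by
  intro κ hκ
  let ι := (Order.succ κ).ord.ToType
  have hreg : (Order.succ κ).IsRegular := isRegular_succ hκ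
  have hcof : Order.cof ι = Order.succ κ := (Ordinal.cof_toType _).trans hreg.cof_ord
  have hne : Nonempty ι := by
    rw [← Order.cof_ne_zero_iff, hcof]
    exact (lt_of_le_of_lt zero_le (Order.lt_succ κ)).ne'
  refine ⟨Lex (ι → ℤ), inferInstance, noMin, noMax, toLex 0, fun A hA => ?_⟩
  classical
  -- an index where the element is not zero
  have h1 : ∀ f : Lex (ι → ℤ), f ≠ toLex 0 → ∃ i, f i ≠ 0 := by
    intro f hf
    by_contra hcon
    push Not at hcon
    exact hf (funext hcon)
  choose! w hw using h1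
  have h2 : ¬ IsCofinal (w '' A) := by
    intro h
    have h3 := Order.cof_le h
    rw [hcof] at h3
    have h4 : #(w '' A) ≤ κ := mk_image_le.trans hA
    exact absurd (h3.trans h4) (not_le.2 (Order.lt_succ κ))
  unfold IsCofinal at h2
  push Not at h2
  obtain ⟨a, ha⟩ := h2
  refine ⟨tli a 1, ?_, ?_⟩
  · intro f hf hfo
    change tl a 1 f = f
    unfold tl
    rw [if_neg]
    intro h
    exact hw f hfo (h _ (ha _ ⟨f, hf, rfl⟩))
  · intro h
    have h3 : tl a 1 (toLex 0) a = (toLex (0 : ι → ℤ)) a := by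
      have h4 : tl a 1 (toLex 0) = toLex 0 := h
      rw [h4]
    rw [tl_apply, if_pos ⟨fun b _ => rfl, rfl⟩] at h3
    have h5 : (toLex (0 : ι → ℤ)) a = 0 := rfl
    rw [h5] at h3
    omega

end Pool.Agent.AEC.S.H70
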